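import Pool.Agent.MP_918781_an.Mg.Final

namespace Pool.Agent.Results.MP_918781_an.Disc

open Pool.Agent.MP_918781_an

/-- In the plane, the minimisers of the first buckling eigenvalue among open sets of finite measure
and De Giorgi perimeter at most `p` are exactly the open discs of radius `p / (2 π)`. -/
theorem result (p : ℝ) (hp : 0 < p) (Ω : Set E) :
    IsOptimal p Ω ↔ ∃ z : E, Ω = Metric.ball z (p / (2 * Real.pi)) :=
  optimal_iff hp Ω

end Pool.Agent.Results.MP_918781_an.Disc
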